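import Pool.Agent.HMT.Stmts

/-!
# Squad HMT, row XSY (helper32): exchange data are symmetric
-/

namespace Pool.Agent.HMT.H32

open Pool.Agent.HMT

/-- the component determines the hub -/
theorem con_unique (F : Fr) (A : Finset F.R) {v : F.J ⊕ F.R} {l : F.J} (h : F.Con A v l) :
    ∀ l', F.Con A v l' → l = l' := by
  induction h with
  | root j =>
    intro l' h'
    cases h'
    rfl
  | step r j hr _ ih =>
    intro l' h'
    cases h' with
    | step _ _ _ h2 => exact ih l' h2

theorem hat_symm_hat (F : Fr) (j k : F.J) (ψ : Equiv.Perm F.R) (v : F.J ⊕ F.R) :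
    F.hat j k ψ.symm (F.hat j k ψ v) = v := by
  rcases v with v | v
  · simp [Fr.hat]
  · simp [Fr.hat]

/-- XSY -/
theorem xsy : XsyStmt := by
  intro F A s j k ψ h
  have hjk : ∀ r, F.Con A (Sum.inr r) j → F.Con A (Sum.inr (ψ.symm r)) k := by
    intro r hr
    by_contra hk
    by_cases hj : F.Con A (Sum.inr (ψ.symm r)) j
    · have h1 := h.jk _ hj
      rw [Equiv.apply_symm_apply] at h1
      exact h.ne (con_unique F A hr _ h1)
    · have h1 := h.fix _ hj hk
      rw [Equiv.apply_symm_apply] at h1
      rw [← h1] at hj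
      exact hj hr
  have hkj : ∀ r, F.Con A (Sum.inr r) k → F.Con A (Sum.inr (ψ.symm r)) j := by
    intro r hr
    by_contra hj
    by_cases hk : F.Con A (Sum.inr (ψ.symm r)) k
    · have h1 := h.kj _ hk
      rw [Equiv.apply_symm_apply] at h1
      exact h.ne (con_unique F A h1 _ hr)
    · have h1 := h.fix _ hj hk
      rw [Equiv.apply_symm_apply] at h1
      rw [← h1] at hk
      exact hk hr
  refine ⟨h.ne, hjk, hkj, ?_, ?_⟩
  · intro r hj hk
    have h1 := h.fix r hj hk
    rw [Equiv.symm_apply_eq]
    exact h1.symm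
  · rcases h.small with h1 | h1
    · left
      intro r hr
      have h2 := h1 (ψ.symm r) (by
        rcases hr with hr | hr
        · exact Or.inr (hjk r hr)
        · exact Or.inl (hkj r hr))
      rw [Equiv.apply_symm_apply] at h2
      rw [h2, hat_symm_hat]
    · exact Or.inr h1

end Pool.Agent.HMT.H32
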